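import Pool.Agent.H28.RC.Targets3

/-!
# Artin reciprocity: existence and conjugacy of Frobenius elements (FRE)
-/

set_option autoImplicit false

open NumberField
open scoped Pointwise

namespace Pool.Agent.H62.RC

open Pool.Agent.H28.RC

section

variable {F Ω : Type} [Field F] [NumberField F] [Field Ω] [NumberField Ω] [Algebra F Ω]

lemma fro_iff [IsGalois F Ω] (P : Ideal (𝓞 F)) (g : Ω ≃ₐ[F] Ω) :
    Fro P g ↔ ∃ Q : Ideal (𝓞 Ω), Q.IsPrime ∧ Q.under (𝓞 F) = P ∧ IsArithFrobAt (𝓞 F) g Q := by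
  constructor
  · rintro ⟨Q, h1, h2, h3⟩
    refine ⟨Q, h1, h2, fun x => ?_⟩
    have h4 := h3 x
    rw [Ideal.absNorm_apply, Submodule.cardQuot_apply, ← h2] at h4
    exact h4
  · rintro ⟨Q, h1, h2, h3⟩
    refine ⟨Q, h1, h2, fun x => ?_⟩
    have h4 := h3 x
    rw [Ideal.absNorm_apply, Submodule.cardQuot_apply, ← h2]
    exact h4

lemma fro_ne_bot {P : Ideal (𝓞 F)} {g : Ω ≃ₐ[F] Ω} (h : Fro P g) : P.IsPrime ∧ P ≠ ⊥ := by
  obtain ⟨Q, h1, h2, h3⟩ := h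
  refine ⟨?_, ?_⟩
  · rw [← h2]
    infer_instance
  · rintro rfl
    have h4 := h3 0
    rw [Ideal.absNorm_bot, pow_zero, smul_zero, zero_sub] at h4
    exact h1.ne_top (Ideal.eq_top_iff_one _ |>.2 (by simpa using Q.neg_mem h4))

lemma under_ne_bot {Q : Ideal (𝓞 Ω)} (h : Q.under (𝓞 F) ≠ ⊥) : Q ≠ ⊥ := by
  rintro rfl
  apply h
  rw [Ideal.under, Ideal.comap_bot_of_injective]
  exact FaithfulSMul.algebraMap_injective _ _

theorem pf_FRE : T_FRE := by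
  intro F Ω _ _ _ _ _ _
  refine ⟨?_, ?_, ?_, ?_⟩
  · intro P hP hP0
    obtain ⟨Q, hQ1, hQ2⟩ := Ideal.exists_ideal_over_prime_of_isIntegral P (⊥ : Ideal (𝓞 Ω)) (by
      rw [Ideal.comap_bot_of_injective _ (FaithfulSMul.algebraMap_injective _ _)]
      exact bot_le)
    have hQ0 : Q ≠ ⊥ := under_ne_bot (F := F) (by
      have : Q.under (𝓞 F) = P := hQ2.2
      rw [this]
      exact hP0)
    have hp : Q.IsPrime := hQ2.1
    have hfin : Finite (𝓞 Ω ⧸ Q) := Ideal.finiteQuotientOfFreeOfNeBot Q hQ0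
    obtain ⟨g, hg⟩ := IsArithFrobAt.exists_of_isInvariant (𝓞 F) (Ω ≃ₐ[F] Ω) Q
    exact ⟨g, (fro_iff P g).2 ⟨Q, hp, hQ2.2, hg⟩⟩
  · intro P g h
    exact fro_ne_bot h
  · intro P g x h
    obtain ⟨Q, h1, h2, h3⟩ := (fro_iff P g).1 h
    have h4 := h3.conj x⁻¹
    rw [inv_inv] at h4
    refine (fro_iff P _).2 ⟨x⁻¹ • Q, ?_, ?_, h4⟩
    · infer_instance
    · rw [Ideal.under_smul, h2]
  · intro m P g g' hU hm h h'
    have hP := fro_ne_bot h
    obtain ⟨Q, h1, h2, h3⟩ := (fro_iff P g).1 h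
    obtain ⟨Q', h1', h2', h3'⟩ := (fro_iff P g').1 h'
    obtain ⟨x, hx⟩ := Algebra.IsInvariant.exists_smul_of_under_eq (𝓞 F) (𝓞 Ω) (Ω ≃ₐ[F] Ω) Q Q'
      (by rw [h2, h2'])
    refine ⟨x⁻¹, ?_⟩
    rw [inv_inv]
    have h4 := h3.conj x
    rw [← hx] at h4
    have h5 := IsArithFrobAt.mul_inv_mem_inertia h3' h4
    have h6 : g' * (x * g * x⁻¹)⁻¹ = 1 := by
      refine hU Q' h1' (under_ne_bot (F := F) (by rw [h2']; exact hP.2)) (by rw [h2', hm]) _ ?_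
      intro y
      exact h5 y
    rw [mul_inv_eq_one] at h6
    exact h6

end

end Pool.Agent.H62.RC
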