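import Pool.Agent.H28.RC.Targets3
import Pool.Agent.H81.RC.EP

/-!
# Artin reciprocity: the logarithm of an L-function (LGE)
-/

set_option autoImplicit false

open NumberField

namespace Pool.Agent.H62.RC

open Pool.Agent.H28.RC Pool.Agent.H25.HK Pool.Agent.H25 Pool.Agent.H76.HK

lemma log_diff {z : ℂ} (hz : ‖z‖ ≤ 1 / 2) : ‖-Complex.log (1 - z) - z‖ ≤ ‖z‖ ^ 2 := by
  have h1 : ‖-z‖ < 1 := by
    rw [norm_neg]
    linarith
  have h2 := Complex.norm_log_one_add_sub_self_le h1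
  have h3 : -Complex.log (1 - z) - z = -(Complex.log (1 + -z) - -z) := by
    rw [← sub_eq_add_neg]
    ring
  rw [h3, norm_neg]
  refine h2.trans ?_
  rw [norm_neg]
  have h5 : (0 : ℝ) < 1 - ‖z‖ := by linarith
  have h4 : (1 - ‖z‖)⁻¹ ≤ 2 := by
    rw [inv_le_comm₀ h5 two_pos]
    linarith
  have h6 : 0 ≤ ‖z‖ ^ 2 := sq_nonneg _
  nlinarith

lemma cpow_real (p : ℕ) (s : ℝ) : (p : ℂ) ^ (-(s : ℂ)) = (((p : ℝ) ^ (-s) : ℝ) : ℂ) := by
  rw [Complex.ofReal_cpow (Nat.cast_nonneg p)]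
  push_cast
  rfl

lemma sum_two : Summable fun p : Nat.Primes => ((p : ℕ) : ℝ) ^ (-(2 : ℝ)) := by
  have h : Summable fun n : ℕ => ((n : ℕ) : ℝ) ^ (-(2 : ℝ)) := by
    rw [Real.summable_nat_rpow]
    norm_num
  exact h.comp_injective Nat.Primes.coe_nat_injective

/-- one factor -/
lemma eul (h : ℕ → ℂ) (h0 : h 0 = 0) (h1 : h 1 = 1) (hm : ∀ a b, h (a * b) = h a * h b)
    (hb : ∀ a, ‖h a‖ ≤ 1) (s : ℝ) (hs : 1 < s) :
    (Summable fun p : Nat.Primes => h p * ((p : ℕ) : ℂ) ^ (-(s : ℂ))) ∧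
    ∃ E : ℂ, ∑' m : ℕ, h m * (m : ℂ) ^ (-(s : ℂ)) = Complex.exp E ∧
      ‖E - ∑' p : Nat.Primes, h p * ((p : ℕ) : ℂ) ^ (-(s : ℂ))‖ ≤
        ∑' p : Nat.Primes, ((p : ℕ) : ℝ) ^ (-(2 : ℝ)) := by
  set f : ℕ →*₀ ℂ :=
    { toFun := fun m => h m * (m : ℂ) ^ (-(s : ℂ))
      map_zero' := by rw [h0, zero_mul]
      map_one' := by rw [h1]; simp
      map_mul' := fun a b => by
        rw [hm]
        push_cast
        rw [Complex.natCast_mul_natCast_cpow]
        ring } with hf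
  have hfa : ∀ m, f m = h m * (m : ℂ) ^ (-(s : ℂ)) := fun m => rfl
  have hnorm : ∀ m, ‖f m‖ ≤ (m : ℝ) ^ (-s) := by
    intro m
    rw [hfa, norm_mul, cpow_real, Complex.norm_real, Real.norm_of_nonneg (by positivity)]
    exact mul_le_of_le_one_left (by positivity) (hb m)
  have hsum : Summable (‖f ·‖) := by
    refine Summable.of_nonneg_of_le (fun m => norm_nonneg _) hnorm ?_
    rw [Real.summable_nat_rpow]
    linarith
  have hsp : Summable fun p : Nat.Primes => f p :=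
    (hsum.of_norm).comp_injective Nat.Primes.coe_nat_injective
  have hlog : Summable fun p : Nat.Primes => -Complex.log (1 - f p) :=
    hsum.of_norm.clog_one_sub.neg.comp_injective Nat.Primes.coe_nat_injective
  refine ⟨hsp, ∑' p : Nat.Primes, -Complex.log (1 - f p), ?_, ?_⟩
  · rw [EulerProduct.exp_tsum_primes_log_eq_tsum hsum]
    rfl
  · have e1 : (∑' p : Nat.Primes, -Complex.log (1 - f p)) -
        ∑' p : Nat.Primes, h p * ((p : ℕ) : ℂ) ^ (-(s : ℂ)) =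
        ∑' p : Nat.Primes, (-Complex.log (1 - f p) - f p) := by
      rw [(hlog.tsum_sub hsp)]
      rfl
    rw [e1]
    refine tsum_of_norm_bounded sum_two.hasSum fun p => ?_
    have hp2 : (2 : ℝ) ≤ ((p : ℕ) : ℝ) := by exact_mod_cast p.2.two_le
    have hp0 : (0 : ℝ) < ((p : ℕ) : ℝ) := by linarith
    have e2 : ‖f p‖ ≤ ((p : ℕ) : ℝ) ^ (-(1 : ℝ)) := by
      refine (hnorm p).trans ?_
      exact Real.rpow_le_rpow_of_exponent_le (by linarith) (by linarith)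
    have e3 : ((p : ℕ) : ℝ) ^ (-(1 : ℝ)) ≤ 1 / 2 := by
      rw [Real.rpow_neg hp0.le, Real.rpow_one, one_div]
      exact inv_anti₀ two_pos hp2
    refine (log_diff (e2.trans e3)).trans ?_
    have e4 : ((p : ℕ) : ℝ) ^ (-(2 : ℝ)) = (((p : ℕ) : ℝ) ^ (-(1 : ℝ))) ^ 2 := by
      rw [← Real.rpow_natCast, ← Real.rpow_mul hp0.le]
      norm_num
    rw [e4]
    exact pow_le_pow_left₀ (norm_nonneg _) e2 2

section

variable {F : Type} [Field F] [NumberField F]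

lemma exists_below (P : Ideal (𝓞 F)) (hP : P.IsPrime) (hP0 : P ≠ ⊥) :
    ∃ p : Nat.Primes, (((p : ℕ)) : 𝓞 F) ∈ P := by
  have h1 : (Ideal.absNorm P) ≠ 0 := by
    rwa [Ne, Ideal.absNorm_eq_zero_iff]
  have h2 : ((Ideal.absNorm P : ℕ) : 𝓞 F) ∈ P := Ideal.absNorm_mem P
  have h3 : ∀ n : ℕ, n ≠ 0 → (n : 𝓞 F) ∈ P → ∃ p : Nat.Primes, (((p : ℕ)) : 𝓞 F) ∈ P := by
    intro n
    induction n using Nat.recOnMul with
    | zero => intro h; exact absurd rfl h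
    | one =>
      intro _ h
      rw [Nat.cast_one] at h
      exact absurd ((Ideal.eq_top_iff_one _).2 h) hP.ne_top
    | prime p hp =>
      intro _ h
      exact ⟨⟨p, hp⟩, h⟩
    | mul x y ihx ihy =>
      intro h h'
      rw [Nat.cast_mul] at h'
      rcases hP.mem_or_mem h' with h'' | h''
      · exact ihx (left_ne_zero_of_mul h) h''
      · exact ihy (right_ne_zero_of_mul h) h''
  exact h3 _ h1 h2

lemma unique_below (P : Ideal (𝓞 F)) (hP : P.IsPrime) (p q : Nat.Primes)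
    (h1 : (((p : ℕ)) : 𝓞 F) ∈ P) (h2 : (((q : ℕ)) : 𝓞 F) ∈ P) : p = q := by
  by_contra hpq
  apply hP.ne_top
  rw [Ideal.eq_top_iff_one]
  have h5 : Nat.Coprime p q := (Nat.coprime_primes p.2 q.2).2 fun h => hpq (Subtype.ext h)
  have h6 : IsCoprime ((p : ℕ) : ℤ) ((q : ℕ) : ℤ) := Nat.isCoprime_iff_coprime.2 h5
  obtain ⟨u, v, huv⟩ := h6
  have h7 : (1 : 𝓞 F) = (u : 𝓞 F) * ((p : ℕ) : 𝓞 F) + (v : 𝓞 F) * ((q : ℕ) : 𝓞 F) := by
    have := congrArg (Int.cast : ℤ → 𝓞 F) huv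
    push_cast at this
    exact this.symm
  rw [h7]
  exact P.add_mem (P.mul_mem_left _ h1) (P.mul_mem_left _ h2)

open scoped Classical in
/-- the weight: the primes of degree one only -/
noncomputable def w1 (χ : RCC F) (P : Ideal (𝓞 F)) : ℝ :=
  if (Ideal.absNorm P).Prime then (χ.ψ P).re else 0

lemma PR_w1 (hPSU : T_PSU) (χ : RCC F) (hw : ∀ P, |w1 χ P| ≤ 1) (s : ℝ) (hs : 1 < s) :
    PR (w1 χ) s = ∑' p : Nat.Primes, (spc χ p 1).re * ((p : ℕ) : ℝ) ^ (-s) := by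
  classical
  choose S hS1 hS2 _ _ using fun p : Nat.Primes => primes_fin F p p.2
  set e0 : (Σ p : Nat.Primes, {P // P ∈ S p}) → PrI F := fun x =>
    ⟨x.2.1, ((hS1 x.1 x.2.1).1 x.2.2).1, ((hS1 x.1 x.2.1).1 x.2.2).2.1⟩ with he0
  have hbij : Function.Bijective e0 := by
    constructor
    · rintro ⟨p, P, hP⟩ ⟨q, Q, hQ⟩ h
      have h' : P = Q := congrArg Subtype.val h
      subst h'
      have h1 := (hS1 p P).1 hP
      have h2 := (hS1 q P).1 hQ
      have h3 := unique_below P h1.1 p q h1.2.2 h2.2.2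
      subst h3
      rfl
    · rintro ⟨P, hP, hP0⟩
      obtain ⟨p, hp⟩ := exists_below P hP hP0
      exact ⟨⟨p, P, (hS1 p P).2 ⟨hP, hP0, hp⟩⟩, rfl⟩
  have hsum := hPSU F (w1 χ) 1 hw s hs
  unfold PR
  rw [← (Equiv.ofBijective e0 hbij).tsum_eq]
  have hsum' : Summable fun x : (Σ p : Nat.Primes, {P // P ∈ S p}) =>
      w1 χ x.2.1 * (Ideal.absNorm x.2.1 : ℝ) ^ (-s) :=
    (Equiv.ofBijective e0 hbij).summable_iff.2 hsum
  refine (hsum'.tsum_sigma).trans (tsum_congr fun p => ?_)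
  rw [Finset.tsum_subtype (S p) fun P => w1 χ P * (Ideal.absNorm P : ℝ) ^ (-s),
    Pool.Agent.H81.RC.spc_eq χ p 1 p.2 (S p) (hS1 p), Complex.re_sum, Finset.sum_mul]
  refine Finset.sum_congr rfl fun P hP => ?_
  have h1 := hS2 p P hP
  by_cases h2 : P.inertiaDeg ℤ = 1
  · have h3 : Ideal.absNorm P = p := by rw [← h1.2, h2, pow_one]
    have h4 : w1 χ P = (χ.ψ P).re := by
      unfold w1
      rw [if_pos]
      rw [h3]
      exact p.2
    rw [h4, h3, h2]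
    simp
  · have h3 : ¬ (Ideal.absNorm P).Prime := by
      rw [← h1.2]
      exact Nat.Prime.not_prime_pow' h2
    have h4 : w1 χ P = 0 := if_neg h3
    have h5 : ¬ P.inertiaDeg ℤ ∣ 1 := by
      rw [Nat.dvd_one]
      exact h2
    rw [h4, if_neg h5]
    simp

end

theorem pf_LGE : T_EPc → T_PSU → T_PRC → T_LGE := by
  intro hEP hPSU hPRC F _ _ χ
  obtain ⟨_, h, h0, h1, hm, hb, _, hL, hsp⟩ := hEP F χ
  have hw : ∀ P, |w1 χ P| ≤ 1 := by
    intro P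
    unfold w1
    split_ifs
    · exact (Complex.abs_re_le_norm _).trans (rcc_norm_le χ P)
    · simp
  have hw' : ∀ P, |(χ.ψ P).re| ≤ 1 := fun P => (Complex.abs_re_le_norm _).trans (rcc_norm_le χ P)
  obtain ⟨C, hC⟩ := hPRC F (w1 χ) (fun P => (χ.ψ P).re) 1 ∅ hw hw' Set.finite_empty (by
    intro P _ _ h3 _
    exact if_pos h3)
  refine ⟨C + (Module.finrank ℚ F : ℝ) * ∑' p : Nat.Primes, ((p : ℕ) : ℝ) ^ (-(2 : ℝ)), ?_⟩
  intro s hs
  choose hsum E hE1 hE2 using fun j => eul (h j) (h0 j) (h1 j) (hm j) (hb j) s hs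
  have hLc : Lc χ s = Complex.exp (∑ j, E j) := by
    rw [hL s (by simpa using hs), Complex.exp_sum]
    exact Finset.prod_congr rfl fun j _ => hE1 j
  refine ⟨by rw [hLc]; exact Complex.exp_ne_zero _, ?_⟩
  have hlog : Real.log ‖Lc χ s‖ = (∑ j, E j).re := by
    rw [hLc, Complex.norm_exp, Real.log_exp]
  have hre : (∑ j, ∑' p : Nat.Primes, h j p * ((p : ℕ) : ℂ) ^ (-(s : ℂ))).re =
      ∑' p : Nat.Primes, (spc χ p 1).re * ((p : ℕ) : ℝ) ^ (-s) := by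
    rw [← Summable.tsum_finsetSum (fun j _ => hsum j), Complex.re_tsum
      (summable_sum fun j _ => hsum j)]
    refine tsum_congr fun p => ?_
    rw [← hsp p 1 p.2 le_rfl, ← Finset.sum_mul, cpow_real, Complex.re_mul_ofReal]
    simp
  have hdiff : |PR (w1 χ) s - Real.log ‖Lc χ s‖| ≤
      (Module.finrank ℚ F : ℝ) * ∑' p : Nat.Primes, ((p : ℕ) : ℝ) ^ (-(2 : ℝ)) := by
    rw [PR_w1 hPSU χ hw s hs, ← hre, hlog, ← Complex.sub_re, ← Finset.sum_sub_distrib]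
    refine (Complex.abs_re_le_norm _).trans ((norm_sum_le _ _).trans ?_)
    have h6 : ∀ j ∈ (Finset.univ : Finset (Fin (Module.finrank ℚ F))),
        ‖∑' p : Nat.Primes, h j p * ((p : ℕ) : ℂ) ^ (-(s : ℂ)) - E j‖ ≤
          ∑' p : Nat.Primes, ((p : ℕ) : ℝ) ^ (-(2 : ℝ)) := by
      intro j _
      rw [norm_sub_rev]
      exact hE2 j
    refine (Finset.sum_le_sum h6).trans ?_
    rw [Finset.sum_const, Finset.card_univ, Fintype.card_fin, nsmul_eq_mul]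
  have h5 := hC s hs
  calc |PR (fun P => (χ.ψ P).re) s - Real.log ‖Lc χ s‖|
      = |(PR (w1 χ) s - Real.log ‖Lc χ s‖) -
          (PR (w1 χ) s - PR (fun P => (χ.ψ P).re) s)| := by ring_nf
    _ ≤ |PR (w1 χ) s - Real.log ‖Lc χ s‖| + |PR (w1 χ) s - PR (fun P => (χ.ψ P).re) s| :=
        abs_sub _ _
    _ ≤ _ := by linarith

end Pool.Agent.H62.RC
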