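import Pool.Agent.H28.RC.Targets3

/-!
# Artin reciprocity: cyclic extensions (RC0)
-/

set_option autoImplicit false

open NumberField

namespace Pool.Agent.H62.RC

open Pool.Agent.H28.RC

lemma sup_mul_top {R : Type} [CommRing R] {P m b : Ideal R} :
    P ⊔ m * b = ⊤ ↔ P ⊔ m = ⊤ ∧ P ⊔ b = ⊤ := by
  rw [← Ideal.isCoprime_iff_sup_eq, ← Ideal.isCoprime_iff_sup_eq, ← Ideal.isCoprime_iff_sup_eq]
  exact IsCoprime.mul_right_iff

lemma mul_sup_top {R : Type} [CommRing R] {P m b : Ideal R} :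
    m * b ⊔ P = ⊤ ↔ m ⊔ P = ⊤ ∧ b ⊔ P = ⊤ := by
  rw [sup_comm, sup_mul_top, sup_comm P m, sup_comm P b]

lemma card_char {G : Type} [Group G] [Finite G] (h : IsCyclic G) :
    Nat.card (G →* ℂˣ) = Nat.card G := by
  letI : CommGroup G := IsCyclic.commGroup
  exact CommGroup.card_monoidHom_of_hasEnoughRootsOfUnity G ℂ

section

variable {F E : Type} [Field F] [NumberField F] [Field E] [NumberField E] [Algebra F E]
  [IsGalois F E]

lemma val_pow (hFRE : T_FRE) {m : Ideal (𝓞 F)} {ψ : Ideal (𝓞 F) → ℂ}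
    (h : Psi m (⊥ : Subgroup (E ≃ₐ[F] E)) ψ) (I : Ideal (𝓞 F)) :
    I ≠ ⊥ → I ⊔ m = ⊤ → ψ I ^ Nat.card (E ≃ₐ[F] E) = 1 := by
  induction I using UniqueFactorizationMonoid.induction_on_prime with
  | h₁ => intro h0; exact absurd rfl h0
  | h₂ x hx =>
    intro _ _
    rw [Ideal.isUnit_iff.1 hx, h.pc.one, one_pow]
  | h₃ a P ha hP ih =>
    intro h0 h1
    have h2 := mul_sup_top.1 h1
    rw [h.pc.mul, mul_pow, ih ha h2.2, mul_one]
    have hP' : P.IsPrime := Ideal.isPrime_of_prime hP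
    obtain ⟨g, hg⟩ := (hFRE F E).1 P hP' hP.ne_zero
    refine h.tr P h2.1 g hg _ ?_
    rw [Subgroup.mem_bot]
    exact pow_card_eq_one'

end

theorem pf_RC0 : T_FIQ → T_FRE → T_PCO → T_EQP → T_CRS → T_RC0 := by
  intro hFIQ hFRE hPCO hEQP hCRS F E _ _ _ _ _ _ μ hc
  obtain ⟨m, hm0, hU, T, hT, hTP⟩ := hFIQ F E hc
  obtain ⟨q, hq, hCR⟩ := hCRS F E m hc hm0 hU
  set b : Ideal (𝓞 F) := m * Ideal.span {(q : 𝓞 F)} with hb
  have hq0 : (Ideal.span {(q : 𝓞 F)} : Ideal (𝓞 F)) ≠ ⊥ := by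
    rw [Ne, Ideal.span_singleton_eq_bot]
    exact_mod_cast (by omega : q ≠ 0)
  have hb0 : b ≠ ⊥ := mul_ne_zero hm0 hq0
  have hbm : b ≤ m := Ideal.mul_le_left
  choose M hM using fun ψ : T => hCR ψ.1 (hTP ψ.1 ψ.2)
  have hinj : Function.Injective M := by
    intro ψ ψ' he
    apply Subtype.ext
    refine hEQP F m b ψ.1 ψ'.1 (hTP _ ψ.2).pc (hTP _ ψ'.2).pc hb0 ?_
    intro P hP hP0 hPb
    obtain ⟨g, hg⟩ := (hFRE F E).1 P hP hP0
    have h1 := sup_mul_top.1 hPb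
    rw [hM ψ P h1.1 h1.2 g hg, hM ψ' P h1.1 h1.2 g hg, he]
  have hcard := card_char hc
  have hfin : Finite ((E ≃ₐ[F] E) →* ℂˣ) := Nat.finite_of_card_ne_zero (by
    rw [hcard]
    exact Nat.card_pos.ne')
  have hbij : Function.Bijective M := by
    have : Fintype ((E ≃ₐ[F] E) →* ℂˣ) := Fintype.ofFinite _
    rw [Fintype.bijective_iff_injective_and_card]
    refine ⟨hinj, ?_⟩
    rw [Fintype.card_coe, hT, ← hcard, Nat.card_eq_fintype_card]
  obtain ⟨ψ, hψ⟩ := hbij.2 μ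
  have hps := hTP ψ.1 ψ.2
  refine ⟨b, rst b ψ.1, (hPCO F m ψ.1 hps.pc).2 b hbm hb0, ?_, ?_⟩
  · intro I
    by_cases h1 : I ⊔ b = ⊤
    · have h2 : rst b ψ.1 I = ψ.1 I := if_pos h1
      rw [h2]
      by_cases h3 : I = ⊥
      · left
        rw [h3, hps.pc.bot]
      · right
        exact val_pow hFRE hps I h3 (sup_mul_top.1 h1).1
    · left
      exact if_neg h1
  · intro P hP g hg
    have h2 : rst b ψ.1 P = ψ.1 P := if_pos hP
    have h1 := sup_mul_top.1 hP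
    rw [h2, hM ψ P h1.1 h1.2 g hg, hψ]

end Pool.Agent.H62.RC
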